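import Pool.Agent.H923R2.FP.Basic

/-! Statements of the tasks (reduced free powers of `C([0,1])`, MP_118406_an). -/

set_option autoImplicit false

open scoped ComplexConjugate ComplexOrder

noncomputable section

namespace Pool.Agent.H923R2.FP

/-! ### T. trace and norm -/

/-- 2-norm calculus -/
def S_T1 : Prop := ∀ (A : Type) [CStarAlgebra A] (τ : A →ₗ[ℂ] ℂ), FTS τ →
  (∀ x y, ‖τ (star x * y)‖ ≤ nt τ x * nt τ y) ∧ (∀ x y, nt τ (x + y) ≤ nt τ x + nt τ y) ∧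
  (∀ x y, nt τ (x * y) ≤ ‖x‖ * nt τ y) ∧ (∀ x, nt τ (star x) = nt τ x) ∧
  (∀ (c : ℂ) x, nt τ (c • x) = ‖c‖ * nt τ x) ∧ (∀ x, nt τ x ≤ ‖x‖) ∧
  (∀ x, (nt τ x : ℂ) ^ 2 = τ (star x * x)) ∧ (∀ x, 0 ≤ nt τ x)

/-- operator norm from the 2-norm -/
def S_T2 : Prop := ∀ (A : Type) [CStarAlgebra A] (τ : A →ₗ[ℂ] ℂ), FTS τ →
  ∀ (x : A) (B : ℝ), 0 ≤ B → (∀ ξ, nt τ (x * ξ) ≤ B * nt τ ξ) → ‖x‖ ≤ B

/-- faithful tracial states in the usual sense -/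
def S_T3 : Prop := ∀ (A : Type) [CStarAlgebra A] (τ : A →ₗ[ℂ] ℂ), τ 1 = 1 →
  (∀ x y, τ (x * y) = τ (y * x)) → (∀ x, 0 ≤ τ (star x * x)) →
  (∀ x, τ (star x * x) = 0 → x = 0) → FTS τ

/-! ### C. Chebyshev polynomials -/

/-- Clebsch–Gordan -/
def S_C1 : Prop := ∀ (B : Type) [Ring B] (x : B) (m n : ℕ),
  Uc x m * Uc x n = ∑ k ∈ Finset.range (min m n + 1), Uc x (m + n - 2 * k)

/-- bounds on `[-2,2]` -/
def S_C2 : Prop := ∀ (l : ℝ), |l| ≤ 2 → ∀ m : ℕ,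
  |Uc l m| ≤ m + 1 ∧ |(4 - l ^ 2) * Uc l m| ≤ 4

/-- `i [P, K] = s + error` -/
def S_C3 : Prop := ∀ (B : Type) [Ring B] [Algebra ℂ B] (P s : B) (N : ℕ), 1 ≤ N →
  Complex.I • (P * (∑ m ∈ Finset.range (N + 3), ∑ n ∈ Finset.range (N + 3),
      kap N m n • (Uc P m * s * Uc P n)) -
    (∑ m ∈ Finset.range (N + 3), ∑ n ∈ Finset.range (N + 3),
      kap N m n • (Uc P m * s * Uc P n)) * P) =
  s + ∑ m ∈ Finset.range (N + 3), ∑ n ∈ Finset.range (N + 3),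
      err N m n • (Uc P m * s * Uc P n)

/-- row and column bound on `[-2,2]` -/
def RC (κ : ℕ → ℕ → ℂ) (M : ℕ) (B : ℝ) : Prop := 0 ≤ B ∧ ∀ l : ℝ, |l| ≤ 2 →
  ∑ m ∈ Finset.range M, ‖∑ n ∈ Finset.range M, κ m n * (Uc l n : ℝ)‖ ^ 2 ≤ B ^ 2 ∧
  ∑ n ∈ Finset.range M, ‖∑ m ∈ Finset.range M, κ m n * (Uc l m : ℝ)‖ ^ 2 ≤ B ^ 2

/-- the error is small -/
def S_C4 : Prop := ∀ ε : ℝ, 0 < ε → ∃ N : ℕ, 1 ≤ N ∧ RC (err N) (N + 3) ε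

/-- every coefficient matrix has some bound -/
def S_C5 : Prop := ∀ (κ : ℕ → ℕ → ℂ) (M : ℕ), ∃ B : ℝ, RC κ M B

/-- functional calculus -/
def S_C6 : Prop := ∀ (A : Type) [CStarAlgebra A] (P : A), star P = P → ‖P‖ ≤ 2 →
  ∀ (M : ℕ) (κ : ℕ → ℕ → ℂ) (B : ℝ), RC κ M B →
  ‖∑ m ∈ Finset.range M, star (∑ n ∈ Finset.range M, κ m n • Uc P n) *
    (∑ n ∈ Finset.range M, κ m n • Uc P n)‖ ≤ B ^ 2 ∧
  ‖∑ n ∈ Finset.range M, (∑ m ∈ Finset.range M, κ m n • Uc P m) *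
    star (∑ m ∈ Finset.range M, κ m n • Uc P m)‖ ≤ B ^ 2

/-! ### W. words: the trace identity -/

/-- liberation identity for words without `s` -/
def S_F1a : Prop := ∀ (A Q R : Type) [CStarAlgebra A] [Ring Q] [StarRing Q] [Algebra ℂ Q]
  [Ring R] [StarRing R] [Algebra ℂ R] (τ : A →ₗ[ℂ] ℂ) (π : Q →⋆ₐ[ℂ] A) (ρ : R →⋆ₐ[ℂ] A) (s : A),
  FTS τ → Sys τ π ρ s → ∀ w : List (Lt Q R), (∀ z ∈ w, z.isS = false) →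
  phi τ (vl π ρ s) 1 1 w = 0

/-- removing the first letter `s` -/
def S_F1b : Prop := ∀ (A Q R : Type) [CStarAlgebra A] [Ring Q] [StarRing Q] [Algebra ℂ Q]
  [Ring R] [StarRing R] [Algebra ℂ R] (τ : A →ₗ[ℂ] ℂ) (π : Q →⋆ₐ[ℂ] A) (ρ : R →⋆ₐ[ℂ] A) (s : A),
  FTS τ → Sys τ π ρ s → ∀ l r : List (Lt Q R), (∀ z ∈ l, z.isS = false) →
  phi τ (vl π ρ s) 1 1 (l ++ Lt.s :: r) =
    ssum (fun r' r'' => τ (ev (vl π ρ s) r') * phi τ (vl π ρ s) 1 1 (l ++ r'')) [] r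

/-- liberation identity -/
def S_F1 : Prop := ∀ (A Q R : Type) [CStarAlgebra A] [Ring Q] [StarRing Q] [Algebra ℂ Q]
  [Ring R] [StarRing R] [Algebra ℂ R] (τ : A →ₗ[ℂ] ℂ) (π : Q →⋆ₐ[ℂ] A) (ρ : R →⋆ₐ[ℂ] A) (s : A),
  FTS τ → Sys τ π ρ s → ∀ w : List (Lt Q R), phi τ (vl π ρ s) 1 1 w = 0

/-- the word starts with a letter of `Q` -/
def hq {Q R : Type} (w : List (Lt Q R)) : Prop := w.head?.map Lt.isQ = some true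

/-- the word ends with a letter of `Q` -/
def lq {Q R : Type} (w : List (Lt Q R)) : Prop := w.getLast?.map Lt.isQ = some true

/-- indicator -/
def ind (p : Prop) : ℂ := by classical exact if p then 1 else 0

/-- reduced centred words -/
def Red {A Q R : Type} [CStarAlgebra A] (τ : A →ₗ[ℂ] ℂ) (θ : Lt Q R → A)
    (w : List (Lt Q R)) : Prop := Alt w ∧ ∀ z ∈ w, τ (θ z) = 0

/-- `phi` between two reduced words -/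
def S_PH : Prop := ∀ (A Q R : Type) [CStarAlgebra A] [Ring Q] [StarRing Q] [Algebra ℂ Q]
  [Ring R] [StarRing R] [Algebra ℂ R] (τ : A →ₗ[ℂ] ℂ) (π : Q →⋆ₐ[ℂ] A) (ρ : R →⋆ₐ[ℂ] A) (s : A),
  FTS τ → Sys τ π ρ s → (∀ w, phi τ (vl π ρ s) 1 1 w = 0) →
  ∀ a b : List (Lt Q R), Red τ (vl π ρ s) a → Red τ (vl π ρ s) b → ∀ w : List (Lt Q R),
  phi τ (vl π ρ s) (ev (vl π ρ s) b) (ev (vl π ρ s) a) w =
    (ind (hq a) - ind (lq b)) * τ (ev (vl π ρ s) a * ev (vl π ρ s) w * ev (vl π ρ s) b)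

/-- reduced word of a group element, and of `g U_m(X) g'`, `m ≥ 1` -/
def S_MID : Prop := ∀ (A Q R : Type) [CStarAlgebra A] [Ring Q] [StarRing Q] [Algebra ℂ Q]
  [Ring R] [StarRing R] [Algebra ℂ R] (τ : A →ₗ[ℂ] ℂ) (π : Q →⋆ₐ[ℂ] A) (ρ : R →⋆ₐ[ℂ] A) (s : A)
  (u : unitary Q) (a : unitary R) (X : R) (p : ℕ), FTS τ → Gad τ π ρ u a X p →
  (∀ g : F2, g.norm < p → ∃ b : List (Lt Q R), Red τ (vl π ρ s) b ∧
    ev (vl π ρ s) b = (GG π ρ u a g : A) ∧ (hq b ↔ S1 g) ∧ (lq b ↔ S1 g⁻¹) ∧ (g ≠ 1 → b ≠ [])) ∧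
  (∀ (g g' : F2) (m : ℕ), g.norm + g'.norm < p → m ≠ 0 → ∃ b : List (Lt Q R),
    Red τ (vl π ρ s) b ∧ ev (vl π ρ s) b = (GG π ρ u a g : A) * ρ (Uc X m) * (GG π ρ u a g' : A) ∧
    (hq b ↔ S1 g) ∧ (lq b ↔ S1 g'⁻¹) ∧ b ≠ [])

/-- the key identity -/
def S_KEY : Prop := ∀ (A Q R : Type) [CStarAlgebra A] [Ring Q] [StarRing Q] [Algebra ℂ Q]
  [Ring R] [StarRing R] [Algebra ℂ R] (τ : A →ₗ[ℂ] ℂ) (π : Q →⋆ₐ[ℂ] A) (ρ : R →⋆ₐ[ℂ] A) (s : A)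
  (u : unitary Q) (a : unitary R) (X : R) (p : ℕ), FTS τ → Sys τ π ρ s → Gad τ π ρ u a X p →
  ∀ (v g : F2), (2 * (v.norm + g.norm) < p) → ∀ (m n : ℕ) (w : List (Lt Q R)),
  phi τ (vl π ρ s) (PU π ρ u a X v n * (GG π ρ u a g⁻¹ : A))
      ((GG π ρ u a g : A) * PU π ρ u a X v m) w =
    (eps v g : ℂ) * ((if n = 0 then τ (PU π ρ u a X v m * ev (vl π ρ s) w) else 0) -
      (if m = 0 then τ (PU π ρ u a X v n * ev (vl π ρ s) w) else 0))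

/-- sum of the key identities -/
def S_STAR : Prop := ∀ (A Q R : Type) [CStarAlgebra A] [Ring Q] [StarRing Q] [Algebra ℂ Q]
  [Ring R] [StarRing R] [Algebra ℂ R] (τ : A →ₗ[ℂ] ℂ) (π : Q →⋆ₐ[ℂ] A) (ρ : R →⋆ₐ[ℂ] A) (s : A)
  (u : unitary Q) (a : unitary R) (X : R) (p : ℕ), FTS τ → Sys τ π ρ s → Gad τ π ρ u a X p →
  ∀ (v : F2) (t : F2 →₀ ℝ) (N : ℕ), 1 ≤ N → (∀ g ∈ t.support, 2 * (v.norm + g.norm) < p) →
  ∑ g ∈ t.support, t g * eps v g = 1 → ∀ w : List (Lt Q R),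
  Complex.I * ∑ g ∈ t.support, (t g : ℂ) * ∑ m ∈ Finset.range (N + 3),
    ∑ n ∈ Finset.range (N + 3), kap N m n *
      phi τ (vl π ρ s) (PU π ρ u a X v n * (GG π ρ u a g⁻¹ : A))
        ((GG π ρ u a g : A) * PU π ρ u a X v m) w = τ (PU π ρ u a X v 1 * ev (vl π ρ s) w)

/-- `τ(s D(w))` -/
def S_DERSD : Prop := ∀ (A Q R : Type) [CStarAlgebra A] [Ring Q] [StarRing Q] [Algebra ℂ Q]
  [Ring R] [StarRing R] [Algebra ℂ R] (τ : A →ₗ[ℂ] ℂ) (π : Q →⋆ₐ[ℂ] A) (ρ : R →⋆ₐ[ℂ] A) (s : A),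
  FTS τ → Sys τ π ρ s → ∀ (L : List (ℂ × List (Lt Q R) × List (Lt Q R))) (p : List (Lt Q R)),
  (∀ x ∈ L, (∀ z ∈ x.2.1, z.isS = false) ∧ ∀ z ∈ x.2.2, z.isS = false) →
  (∀ z ∈ p, z.isS = false) → ∀ h : A,
  h = (L.map fun x => x.1 • (ev (vl π ρ s) x.2.1 * s * ev (vl π ρ s) x.2.2)).sum →
  ∀ w : List (Lt Q R), τ (s * der (vl π ρ s) (dl π h (ev (vl π ρ s) p)) w) =
    ssum (fun l r => τ (der (vl π ρ s) (dl π h (ev (vl π ρ s) p)) l) * τ (ev (vl π ρ s) r) +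
      τ (ev (vl π ρ s) l) * τ (der (vl π ρ s) (dl π h (ev (vl π ρ s) p)) r)) [] w +
    Complex.I * (L.map fun x => x.1 *
      phi τ (vl π ρ s) (ev (vl π ρ s) x.2.2) (ev (vl π ρ s) x.2.1) w).sum

/-- the trace identity -/
def S_TI : Prop := ∀ (A Q R : Type) [CStarAlgebra A] [Ring Q] [StarRing Q] [Algebra ℂ Q]
  [Ring R] [StarRing R] [Algebra ℂ R] (τ : A →ₗ[ℂ] ℂ) (π : Q →⋆ₐ[ℂ] A) (ρ : R →⋆ₐ[ℂ] A) (s : A),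
  FTS τ → Sys τ π ρ s → ∀ (L : List (ℂ × List (Lt Q R) × List (Lt Q R))) (p : List (Lt Q R)),
  (∀ x ∈ L, (∀ z ∈ x.2.1, z.isS = false) ∧ ∀ z ∈ x.2.2, z.isS = false) →
  (∀ z ∈ p, z.isS = false) → ∀ h : A,
  h = (L.map fun x => x.1 • (ev (vl π ρ s) x.2.1 * s * ev (vl π ρ s) x.2.2)).sum →
  (∀ w : List (Lt Q R), Complex.I * (L.map fun x => x.1 *
      phi τ (vl π ρ s) (ev (vl π ρ s) x.2.2) (ev (vl π ρ s) x.2.1) w).sum =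
    τ (ev (vl π ρ s) p * ev (vl π ρ s) w)) →
  ∀ w : List (Lt Q R), τ (der (vl π ρ s) (dl π h (ev (vl π ρ s) p)) w) = 0

/-- the formal expression of `∑ c(g) g K g⁻¹` -/
def S_HX : Prop := ∀ (A Q R : Type) [CStarAlgebra A] [Ring Q] [StarRing Q] [Algebra ℂ Q]
  [Ring R] [StarRing R] [Algebra ℂ R] (ρ : R →⋆ₐ[ℂ] A)
  (u : unitary Q) (a : unitary R) (X : R) (v : F2) (t : F2 →₀ ℝ) (κ : ℕ → ℕ → ℂ) (M : ℕ),
  star X = X → (∀ m n, κ n m = conj (κ m n)) →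
  ∃ L : List (ℂ × List (Lt Q R) × List (Lt Q R)),
    (∀ x ∈ L, (∀ z ∈ x.2.1, z.isS = false) ∧ ∀ z ∈ x.2.2, z.isS = false) ∧
    (∀ (π : Q →⋆ₐ[ℂ] A) (s : A), AdK π ρ u a X v s t κ M =
      (L.map fun x => x.1 • (ev (vl π ρ s) x.2.1 * s * ev (vl π ρ s) x.2.2)).sum) ∧
    (∀ (π : Q →⋆ₐ[ℂ] A) (s : A) (F : A → A → ℂ), (L.map fun x => x.1 *
        F (ev (vl π ρ s) x.2.1) (ev (vl π ρ s) x.2.2)).sum =
      ∑ g ∈ t.support, (t g : ℂ) * ∑ m ∈ Finset.range M, ∑ n ∈ Finset.range M, κ m n *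
        F ((GG π ρ u a g : A) * PU π ρ u a X v m) (PU π ρ u a X v n * (GG π ρ u a g⁻¹ : A))) ∧
    SAx A (L.map fun x => (x.1, x.2.1 ++ Lt.s :: x.2.2)) ∧
    SAx A [((1 : ℂ), pw u a X v 1)]

/-! ### N. the norm inequality -/

/-- left annihilation `∑ τ(w') w''` over the splittings `w = w' s w''` -/
def Ls {A Q R : Type} [CStarAlgebra A] (τ : A →ₗ[ℂ] ℂ) (θ : Lt Q R → A) (w : List (Lt Q R)) : A :=
  ssum (fun l r => τ (ev θ l) • ev θ r) [] w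

/-- adjointness of creation and annihilation -/
def S_N1 : Prop := ∀ (A Q R : Type) [CStarAlgebra A] [Ring Q] [StarRing Q] [Algebra ℂ Q]
  [Ring R] [StarRing R] [Algebra ℂ R] (τ : A →ₗ[ℂ] ℂ) (π : Q →⋆ₐ[ℂ] A) (ρ : R →⋆ₐ[ℂ] A) (s : A),
  FTS τ → Sys τ π ρ s → ∀ v w : List (Lt Q R),
  τ (star (ev (vl π ρ s) v) * Ls τ (vl π ρ s) w) =
    τ (star (s * ev (vl π ρ s) v - Ls τ (vl π ρ s) v) * ev (vl π ρ s) w)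

/-- `l* c l = τ(c)` -/
def S_N2 : Prop := ∀ (A Q R : Type) [CStarAlgebra A] [Ring Q] [StarRing Q] [Algebra ℂ Q]
  [Ring R] [StarRing R] [Algebra ℂ R] (τ : A →ₗ[ℂ] ℂ) (π : Q →⋆ₐ[ℂ] A) (ρ : R →⋆ₐ[ℂ] A) (s : A),
  FTS τ → Sys τ π ρ s → (∀ v w : List (Lt Q R),
    τ (star (ev (vl π ρ s) v) * Ls τ (vl π ρ s) w) =
      τ (star (s * ev (vl π ρ s) v - Ls τ (vl π ρ s) v) * ev (vl π ρ s) w)) →
  ∀ c v w : List (Lt Q R), (∀ z ∈ c, z.isS = false) →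
  τ (star (s * ev (vl π ρ s) v - Ls τ (vl π ρ s) v) * ev (vl π ρ s) c *
      (s * ev (vl π ρ s) w - Ls τ (vl π ρ s) w)) =
    τ (ev (vl π ρ s) c) * τ (star (ev (vl π ρ s) v) * ev (vl π ρ s) w)

/-- the 2-norm inequality for `T = ∑ M_ij e_i s e_j*` -/
def S_N3 : Prop := ∀ (A Q R : Type) [CStarAlgebra A] [Ring Q] [StarRing Q] [Algebra ℂ Q]
  [Ring R] [StarRing R] [Algebra ℂ R] (τ : A →ₗ[ℂ] ℂ) (π : Q →⋆ₐ[ℂ] A) (ρ : R →⋆ₐ[ℂ] A) (s : A),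
  FTS τ → Sys τ π ρ s → ∀ (ι : Type) [Fintype ι] [DecidableEq ι] (e : ι → List (Lt Q R))
  (M : ι → ι → ℂ) (B : ℝ), 0 ≤ B → (∀ i, ∀ z ∈ e i, z.isS = false) →
  (∀ i j, τ (star (ev (vl π ρ s) (e i)) * ev (vl π ρ s) (e j)) = if i = j then 1 else 0) →
  ‖∑ i, star (∑ j, M i j • star (ev (vl π ρ s) (e j))) *
    (∑ j, M i j • star (ev (vl π ρ s) (e j)))‖ ≤ B ^ 2 →
  ‖∑ j, (∑ i, M i j • ev (vl π ρ s) (e i)) * star (∑ i, M i j • ev (vl π ρ s) (e i))‖ ≤ B ^ 2 →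
  ∀ ξ : Ex Q R, nt τ ((∑ i, ∑ j, M i j • (ev (vl π ρ s) (e i) * s * star (ev (vl π ρ s) (e j))))
    * evx (vl π ρ s) ξ) ≤ 2 * B * nt τ (evx (vl π ρ s) ξ)

/-- orthonormality of the `g U_m(P)` -/
def S_N4 : Prop := ∀ (A Q R : Type) [CStarAlgebra A] [Ring Q] [StarRing Q] [Algebra ℂ Q]
  [Ring R] [StarRing R] [Algebra ℂ R] (τ : A →ₗ[ℂ] ℂ) (π : Q →⋆ₐ[ℂ] A) (ρ : R →⋆ₐ[ℂ] A) (s : A)
  (u : unitary Q) (a : unitary R) (X : R) (p : ℕ), FTS τ → Sys τ π ρ s → Gad τ π ρ u a X p →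
  ∀ (v g g' : F2) (m m' : ℕ), 2 * v.norm + g.norm + g'.norm < p →
  τ (star ((GG π ρ u a g : A) * PU π ρ u a X v m) * ((GG π ρ u a g' : A) * PU π ρ u a X v m')) =
    if g = g' ∧ m = m' then 1 else 0

/-- the operator norm of `∑ c(g) g K g⁻¹` -/
def S_NI : Prop := ∀ (A Q R : Type) [CStarAlgebra A] [Ring Q] [StarRing Q] [Algebra ℂ Q]
  [Ring R] [StarRing R] [Algebra ℂ R] (τ : A →ₗ[ℂ] ℂ) (π : Q →⋆ₐ[ℂ] A) (ρ : R →⋆ₐ[ℂ] A) (s : A)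
  (u : unitary Q) (a : unitary R) (X : R) (p : ℕ), FTS τ → Sys τ π ρ s → Gen π ρ s →
  Gad τ π ρ u a X p → ∀ (v : F2) (c : F2 →₀ ℝ) (κ : ℕ → ℕ → ℂ) (M : ℕ) (B : ℝ), RC κ M B →
  (∀ g ∈ c.support, 2 * (v.norm + g.norm) < p) →
  ‖AdK π ρ u a X v s c κ M‖ ≤ 2 * B * n2 c

/-- algebra of `∑ c(g) g K g⁻¹` -/
def S_AD : Prop := ∀ (A Q R : Type) [CStarAlgebra A] [Ring Q] [StarRing Q] [Algebra ℂ Q]
  [Ring R] [StarRing R] [Algebra ℂ R] (π : Q →⋆ₐ[ℂ] A) (ρ : R →⋆ₐ[ℂ] A) (s : A)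
  (u : unitary Q) (a : unitary R) (X : R) (v : F2) (κ : ℕ → ℕ → ℂ) (M : ℕ),
  (∀ c c', AdK π ρ u a X v s (c + c') κ M =
    AdK π ρ u a X v s c κ M + AdK π ρ u a X v s c' κ M) ∧
  (∀ (r : ℝ) c, AdK π ρ u a X v s (r • c) κ M = (r : ℂ) • AdK π ρ u a X v s c κ M) ∧
  (∀ g c, (GG π ρ u a g : A) * AdK π ρ u a X v s c κ M * (GG π ρ u a g⁻¹ : A) =
    AdK π ρ u a X v s (act g c) κ M) ∧
  AdK π ρ u a X v s (Finsupp.single 1 1) κ M = KK π ρ u a X v s κ M ∧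
  (∀ m, PU π ρ u a X v m = Uc (PU π ρ u a X v 1) m)

/-- the derivative of `P = v X v⁻¹`, `v = y_{2L}` -/
def S_FORM : Prop := ∀ (A Q R : Type) [CStarAlgebra A] [Ring Q] [StarRing Q] [Algebra ℂ Q]
  [Ring R] [StarRing R] [Algebra ℂ R] (π : Q →⋆ₐ[ℂ] A) (ρ : R →⋆ₐ[ℂ] A) (s : A)
  (u : unitary Q) (a : unitary R) (X : R) (L : ℕ) (t : F2 →₀ ℝ) (κ : ℕ → ℕ → ℂ) (M : ℕ) (P : A),
  der (vl π ρ s) (dl π (AdK π ρ u a X (yy (2 * L)) s t κ M) P) (pw u a X (yy (2 * L)) 1) =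
    Complex.I • (PU π ρ u a X (yy (2 * L)) 1 * AdK π ρ u a X (yy (2 * L)) s (Zs L t) κ M -
      AdK π ρ u a X (yy (2 * L)) s (Zs L t) κ M * PU π ρ u a X (yy (2 * L)) 1)

/-! ### E. combinatorics in the free group -/

/-- admissibility of `q` in front of `w` -/
def adm (q : ℕ) : List (ℕ × ℕ) → Prop
  | [] => True
  | (p, _) :: _ => p + 3 ≤ q ∨ q + 3 ≤ p

/-- valid index words -/
def Vd : List (ℕ × ℕ) → Prop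
  | [] => True
  | (p, q) :: w => 1 ≤ p ∧ 1 ≤ q ∧ p ≠ q ∧ adm q w ∧ Vd w

/-- the value of an index word -/
def val : List (ℕ × ℕ) → F2
  | [] => 1
  | (p, q) :: w => yy p * ((yy q)⁻¹ * val w)

/-- distinctness of the alternating words -/
def S_DIST : Prop :=
  (∀ w w' : List (ℕ × ℕ), Vd w → Vd w' → val w = val w' → w = w') ∧
  (∀ (w w' : List (ℕ × ℕ)) (q q' : ℕ), Vd w → Vd w' → 1 ≤ q → 1 ≤ q' → adm q w → adm q' w' →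
    (yy q)⁻¹ * val w = (yy q')⁻¹ * val w' → q = q' ∧ w = w')

/-- the small solution -/
def S_CW : Prop := ∀ ε : ℝ, 0 < ε → ∃ (L : ℕ) (t : F2 →₀ ℝ), n2 t < ε ∧
  n2 (Zs L t - Finsupp.single 1 1) < ε ∧ (Zs L t) 1 = 1

/-- the normalisation in terms of `eps` -/
def S_EPS : Prop := ∀ (L : ℕ) (t : F2 →₀ ℝ),
  ∑ g ∈ t.support, t g * eps (yy (2 * L)) g = (Zs L t) 1

/-! ### D. the flow -/

/-- global existence for ordinary differential equations with an a priori bound -/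
def S_ODE : Prop := ∀ (E : Type) [NormedAddCommGroup E] [NormedSpace ℝ E] [CompleteSpace E]
  (V : E → E), (∀ r : ℝ, ∃ K : NNReal, LipschitzOnWith K V (Metric.closedBall 0 r)) →
  ∀ (x0 : E) (T r : ℝ), 0 < T →
  (∀ (T' : ℝ) (x : ℝ → E), 0 < T' → T' ≤ T → x 0 = x0 →
    (∀ t ∈ Set.Icc 0 T', HasDerivWithinAt x (V (x t)) (Set.Icc 0 T') t) →
    ∀ t ∈ Set.Icc 0 T', ‖x t‖ ≤ r) →
  ∃ x : ℝ → E, x 0 = x0 ∧ ∀ t ∈ Set.Icc 0 T, HasDerivWithinAt x (V (x t)) (Set.Icc 0 T) t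

/-- evaluation is Lipschitz on balls -/
def S_LIP : Prop := ∀ (A Q R : Type) [CStarAlgebra A] [Ring Q] [StarRing Q] [Algebra ℂ Q]
  [Ring R] [StarRing R] [Algebra ℂ R] (π : Q →⋆ₐ[ℂ] A) (ρ : R →⋆ₐ[ℂ] A) (e : Ex Q R) (r : ℝ),
  ∃ K : NNReal, LipschitzOnWith K (fun x : A × A => evx (vu π ρ x.1 x.2) e)
    (Metric.closedBall 0 r)

/-- a solution of the flow equation on `[0,T]` -/
structure Sol {A Q R : Type} [CStarAlgebra A] [Ring Q] [StarRing Q] [Algebra ℂ Q]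
    [Ring R] [StarRing R] [Algebra ℂ R] (π : Q →⋆ₐ[ℂ] A) (ρ : R →⋆ₐ[ℂ] A) (hx px : Ex Q R)
    (T : ℝ) (U : ℝ → unitary A) (s : ℝ → A) : Prop where
  U0 : U 0 = 1
  ssa : ∀ t, star (s t) = s t
  dU : ∀ t ∈ Set.Icc 0 T, HasDerivWithinAt (fun t => (U t : A))
    (Complex.I • ((U t : A) * evx (vl (cj π (U t)) ρ (s t)) hx)) (Set.Icc 0 T) t
  ds : ∀ t ∈ Set.Icc 0 T, HasDerivWithinAt s (- evx (vl (cj π (U t)) ρ (s t)) px)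
    (Set.Icc 0 T) t

/-- existence of the flow -/
def S_FLOW : Prop := ∀ (A Q R : Type) [CStarAlgebra A] [Ring Q] [StarRing Q] [Algebra ℂ Q]
  [Ring R] [StarRing R] [Algebra ℂ R] (π : Q →⋆ₐ[ℂ] A) (ρ : R →⋆ₐ[ℂ] A) (hx px : Ex Q R),
  SAx A hx → SAx A px → (∀ p ∈ px, ∀ z ∈ p.2, z.isS = false) → ∀ s0 : A, star s0 = s0 →
  ∀ T : ℝ, 0 < T → ∃ (U : ℝ → unitary A) (s : ℝ → A), s 0 = s0 ∧ Sol π ρ hx px T U s

/-- derivative of a word along the flow -/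
def S_WDER : Prop := ∀ (A Q R : Type) [CStarAlgebra A] [Ring Q] [StarRing Q] [Algebra ℂ Q]
  [Ring R] [StarRing R] [Algebra ℂ R] (π : Q →⋆ₐ[ℂ] A) (ρ : R →⋆ₐ[ℂ] A) (hx px : Ex Q R) (T : ℝ)
  (U : ℝ → unitary A) (s : ℝ → A), SAx A hx → Sol π ρ hx px T U s →
  ∀ (w : List (Lt Q R)), ∀ t ∈ Set.Icc 0 T,
  HasDerivWithinAt (fun t => ev (vl (cj π (U t)) ρ (s t)) w)
    (der (vl (cj π (U t)) ρ (s t)) (dl (cj π (U t)) (evx (vl (cj π (U t)) ρ (s t)) hx)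
      (evx (vl (cj π (U t)) ρ (s t)) px)) w) (Set.Icc 0 T) t

/-- the formal derivation and its analytic bound -/
def S_BND : Prop := ∀ (Q R : Type) [Ring Q] [StarRing Q] [Algebra ℂ Q]
  [Ring R] [StarRing R] [Algebra ℂ R] (hx px : Ex Q R), ∃ D : List (Lt Q R) → Ex Q R,
  (∀ (A : Type) [CStarAlgebra A] (π : Q →⋆ₐ[ℂ] A) (ρ : R →⋆ₐ[ℂ] A) (s : A) (w : List (Lt Q R)),
    evx (vl π ρ s) (D w) =
      der (vl π ρ s) (dl π (evx (vl π ρ s) hx) (evx (vl π ρ s) px)) w) ∧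
  ∀ ω : Lt Q R → ℝ, (∀ z, 1 ≤ ω z) → ∃ K : ℝ, 0 ≤ K ∧ ∀ (n : ℕ) (w : List (Lt Q R)),
    wtx ω ((lix D)^[n] [(1, w)]) ≤ n.factorial * K ^ n * 2 ^ w.length * (w.map ω).prod

/-- the flow preserves the law -/
def S_LAW : Prop := ∀ (A Q R : Type) [CStarAlgebra A] [Ring Q] [StarRing Q] [Algebra ℂ Q]
  [Ring R] [StarRing R] [Algebra ℂ R] (τ : A →ₗ[ℂ] ℂ) (π : Q →⋆ₐ[ℂ] A) (ρ : R →⋆ₐ[ℂ] A)
  (hx px : Ex Q R) (T : ℝ) (U : ℝ → unitary A) (s : ℝ → A), FTS τ → SAx A hx →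
  Sol π ρ hx px T U s →
  (∀ w : List (Lt Q R), τ (der (vl π ρ (s 0)) (dl π (evx (vl π ρ (s 0)) hx)
    (evx (vl π ρ (s 0)) px)) w) = 0) →
  ∀ t ∈ Set.Icc 0 T, Law τ (vl π ρ (s 0)) (vl (cj π (U t)) ρ (s t))

/-- the flow preserves generation -/
def S_BACK : Prop := ∀ (A Q R : Type) [CStarAlgebra A] [Ring Q] [StarRing Q] [Algebra ℂ Q]
  [Ring R] [StarRing R] [Algebra ℂ R] (π : Q →⋆ₐ[ℂ] A) (ρ : R →⋆ₐ[ℂ] A) (hx px : Ex Q R) (T : ℝ)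
  (U : ℝ → unitary A) (s : ℝ → A), 0 < T → SAx A hx → SAx A px →
  (∀ p ∈ px, ∀ z ∈ p.2, z.isS = false) → Sol π ρ hx px T U s → Gen π ρ (s 0) →
  Gen (cj π (U T)) ρ (s T)

/-! ### G. stage and limit -/

/-- transfer of all properties along equality of laws -/
def S_TRF : Prop := ∀ (A Q R : Type) [CStarAlgebra A] [Ring Q] [StarRing Q] [Algebra ℂ Q]
  [Ring R] [StarRing R] [Algebra ℂ R] (τ : A →ₗ[ℂ] ℂ) (π π' : Q →⋆ₐ[ℂ] A) (ρ : R →⋆ₐ[ℂ] A)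
  (s s' : A), FTS τ → Law τ (vl π ρ s) (vl π' ρ s') → star s' = s' →
  (Sys τ π ρ s → Sys τ π' ρ s') ∧
  ∀ (u : unitary Q) (a : unitary R) (X : R) (p : ℕ), Gad τ π ρ u a X p → Gad τ π' ρ u a X p

/-- the conclusion of the stage theorem -/
def Stg {A Q R : Type} [CStarAlgebra A] [Ring Q] [StarRing Q] [Algebra ℂ Q]
    [Ring R] [StarRing R] [Algebra ℂ R] (τ : A →ₗ[ℂ] ℂ) (π : Q →⋆ₐ[ℂ] A) (ρ : R →⋆ₐ[ℂ] A)
    (s : A) : Prop :=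
  ∀ ε : ℝ, 0 < ε → ∃ (π' : Q →⋆ₐ[ℂ] A) (s' : A), Law τ (vl π ρ s) (vl π' ρ s') ∧ star s' = s' ∧
    Gen π' ρ s' ∧ (∀ x, ‖π' x - π x‖ ≤ ε * ‖π x‖) ∧
    ∃ w : List (Lt Q R), (∀ z ∈ w, z.isS = false) ∧ ‖ev (vl π' ρ s') w - s‖ ≤ ε

/-- the stage theorem -/
def S_STAGE : Prop := ∀ (A Q R : Type) [CStarAlgebra A] [Ring Q] [StarRing Q] [Algebra ℂ Q]
  [Ring R] [StarRing R] [Algebra ℂ R] (τ : A →ₗ[ℂ] ℂ) (π : Q →⋆ₐ[ℂ] A) (ρ : R →⋆ₐ[ℂ] A) (s : A),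
  FTS τ → Sys τ π ρ s → Gen π ρ s →
  (∀ p, ∃ (u : unitary Q) (a : unitary R) (X : R), Gad τ π ρ u a X p) → Stg τ π ρ s

/-- the limit -/
def S_LIM : Prop := ∀ (A Q R : Type) [CStarAlgebra A] [TopologicalSpace.SeparableSpace A]
  [Ring Q] [StarRing Q] [Algebra ℂ Q]
  [Ring R] [StarRing R] [Algebra ℂ R] (τ : A →ₗ[ℂ] ℂ) (π : Q →⋆ₐ[ℂ] A) (ρ : R →⋆ₐ[ℂ] A) (s : A),
  FTS τ → star s = s → Gen π ρ s →
  (∀ (π' : Q →⋆ₐ[ℂ] A) (s' : A), Law τ (vl π ρ s) (vl π' ρ s') → star s' = s' →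
    Gen π' ρ s' → Stg τ π' ρ s') →
  ∃ σ : Q →⋆ₐ[ℂ] A, (∀ w : List (Lt Q R), (∀ z ∈ w, z.isS = false) →
    τ (ev (vl σ ρ 0) w) = τ (ev (vl π ρ 0) w)) ∧ Gen0 σ ρ

/-! ### H. free products -/

/-- the semicircular function on `[0,1]` -/
def S_PHI : Prop := ∃ φ : C(unitInterval, ℝ), (∀ x, |φ x| ≤ 2) ∧ Function.Injective φ ∧
  ∀ m : ℕ, m ≠ 0 → ∫ x : unitInterval, Uc (φ x) m = 0

/-- complexification of a real function -/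
def cx (φ : C(unitInterval, ℝ)) : C(unitInterval, ℂ) :=
  ⟨fun x => (φ x : ℂ), Complex.continuous_ofReal.comp φ.continuous⟩

/-- a Haar unitary and a semicircular element of `C([0,1])`, independent up to order `p` -/
def S_GADC : Prop := ∀ φ : C(unitInterval, ℝ), (∀ x, |φ x| ≤ 2) →
  (∀ m : ℕ, m ≠ 0 → ∫ x : unitInterval, Uc (φ x) m = 0) → ∀ p : ℕ,
  ∃ (u : unitary C(unitInterval, ℂ)) (X : C(unitInterval, ℂ)), star X = X ∧ ‖X‖ ≤ 2 ∧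
    (∀ n : ℤ, n ≠ 0 → leb ((u ^ n : unitary C(unitInterval, ℂ)) : C(unitInterval, ℂ)) = 0) ∧
    (∀ m : ℕ, m ≠ 0 → leb (Uc X m) = 0) ∧
    ∀ n : ℤ, n ≠ 0 → n.natAbs < p → ∀ m : ℕ,
      leb (Uc X m * ((u ^ n : unitary C(unitInterval, ℂ)) : C(unitInterval, ℂ))) = 0

/-- grouping of free families -/
def S_GRP : Prop := ∀ (A : Type) [CStarAlgebra A] (τ : A →ₗ[ℂ] ℂ), FTS τ →
  ∀ (K : Type) (S : K → StarSubalgebra ℂ A), FreeFam τ S → ∀ k0 : K,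
  FreeFam τ fun b : Bool => if b then S k0 else ⨆ k : {k // k ≠ k0}, S k.1

/-- converse of grouping -/
def S_UNG : Prop := ∀ (A : Type) [CStarAlgebra A] (τ : A →ₗ[ℂ] ℂ), FTS τ →
  ∀ (K : Type) (S : K → StarSubalgebra ℂ A) (k0 : K),
  FreeFam τ (fun k : {k // k ≠ k0} => S k.1) →
  FreeFam τ (fun b : Bool => if b then S k0 else ⨆ k : {k // k ≠ k0}, S k.1) → FreeFam τ S

/-- Schwinger–Dyson equations from freeness -/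
def S_SDF : Prop := ∀ (A Q R : Type) [CStarAlgebra A] [Ring Q] [StarRing Q] [Algebra ℂ Q]
  [Ring R] [StarRing R] [Algebra ℂ R] (τ : A →ₗ[ℂ] ℂ) (π : Q →⋆ₐ[ℂ] A) (ρ : R →⋆ₐ[ℂ] A) (s : A)
  (S C : StarSubalgebra ℂ A), FTS τ → s ∈ S → star s = s → (∀ x, π x ∈ C) → (∀ x, ρ x ∈ C) →
  (∀ m : ℕ, m ≠ 0 → τ (Uc s m) = 0) → FreeFam τ (fun b : Bool => if b then S else C) →
  ∀ w : List (Lt Q R), τ (s * ev (vl π ρ s) w) =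
    ssum (fun l r => τ (ev (vl π ρ s) l) * τ (ev (vl π ρ s) r)) [] w

/-- the moments of a reduced free product -/
def S_MOM : Prop := ∀ (J : Type) (D : J → Type) [∀ j, CStarAlgebra (D j)] (t : ∀ j, D j → ℂ)
  (A B : Type) [CStarAlgebra A] [CStarAlgebra B] (τ : A →ₗ[ℂ] ℂ) (τ' : B →ₗ[ℂ] ℂ)
  (e : ∀ j, D j →⋆ₐ[ℂ] A) (e' : ∀ j, D j →⋆ₐ[ℂ] B), RFP D t τ e → RFP D t τ' e' →
  ∀ w : List (Σ j, D j), τ ((w.map fun z => e z.1 z.2).prod) = τ' ((w.map fun z => e' z.1 z.2).prod)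

/-- the norm is determined by the moments -/
def S_NRM : Prop := ∀ (A B : Type) [CStarAlgebra A] [CStarAlgebra B] (τ : A →ₗ[ℂ] ℂ)
  (τ' : B →ₗ[ℂ] ℂ), FTS τ → FTS τ' → ∀ (x : A) (y : B),
  (∀ n : ℕ, τ ((star x * x) ^ n) = τ' ((star y * y) ^ n)) → ‖x‖ = ‖y‖

/-- uniqueness of reduced free products -/
def S_UNIQ : Prop := ∀ (J : Type) (D : J → Type) [∀ j, CStarAlgebra (D j)] (t : ∀ j, D j → ℂ)
  (A B : Type) [CStarAlgebra A] [CStarAlgebra B] (τ : A →ₗ[ℂ] ℂ) (τ' : B →ₗ[ℂ] ℂ)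
  (e : ∀ j, D j →⋆ₐ[ℂ] A) (e' : ∀ j, D j →⋆ₐ[ℂ] B), RFP D t τ e → RFP D t τ' e' →
  ∃ Φ : A ≃⋆ₐ[ℂ] B, (∀ j x, Φ (e j x) = e' j x) ∧ ∀ x, τ' (Φ x) = τ x

/-- separability -/
def S_SEP : Prop := ∀ (J : Type) [Countable J] (D : J → Type) [∀ j, CStarAlgebra (D j)]
  [∀ j, TopologicalSpace.SeparableSpace (D j)] (t : ∀ j, D j → ℂ)
  (A : Type) [CStarAlgebra A] (τ : A →ₗ[ℂ] ℂ) (e : ∀ j, D j →⋆ₐ[ℂ] A)
  (f : C(unitInterval, ℂ) →⋆ₐ[ℂ] A), RFP1 D t τ e f → TopologicalSpace.SeparableSpace A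

/-- the fixed algebra -/
def RR {J : Type} {D : J → Type} [∀ j, CStarAlgebra (D j)] {A : Type} [CStarAlgebra A]
    (e : ∀ j, D j →⋆ₐ[ℂ] A) (i0 : J) : StarSubalgebra ℂ A :=
  ⨆ k : {k // k ≠ i0}, (e k.1).range

/-- the system of a reduced free product -/
def S_ABS1 : Prop := ∀ (J : Type) (D : J → Type) [∀ j, CStarAlgebra (D j)] (t : ∀ j, D j → ℂ)
  (i0 : J) (A : Type) [CStarAlgebra A] (τ : A →ₗ[ℂ] ℂ)
  (e : ∀ j, D j →⋆ₐ[ℂ] A) (f : C(unitInterval, ℂ) →⋆ₐ[ℂ] A), RFP1 D t τ e f →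
  ∀ φ : C(unitInterval, ℝ), (∀ m : ℕ, m ≠ 0 → ∫ x : unitInterval, Uc (φ x) m = 0) →
  Sys τ (e i0) (RR e i0).subtype (f (cx φ))

/-- its gadgets -/
def S_ABS2 : Prop := ∀ (J : Type) (D : J → Type) [∀ j, CStarAlgebra (D j)] (t : ∀ j, D j → ℂ)
  (i0 i1 : J), i0 ≠ i1 → ∀ (c0 : C(unitInterval, ℂ) →⋆ₐ[ℂ] D i0) (c1 : C(unitInterval, ℂ) →⋆ₐ[ℂ] D i1),
  (∀ x, t i0 (c0 x) = leb x) → (∀ x, t i1 (c1 x) = leb x) →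
  ∀ (A : Type) [CStarAlgebra A] (τ : A →ₗ[ℂ] ℂ)
  (e : ∀ j, D j →⋆ₐ[ℂ] A) (f : C(unitInterval, ℂ) →⋆ₐ[ℂ] A), RFP1 D t τ e f → ∀ p : ℕ,
  ∃ (u : unitary (D i0)) (a : unitary (RR e i0)) (X : RR e i0),
    Gad τ (e i0) (RR e i0).subtype u a X p

/-- it generates -/
def S_ABS3 : Prop := ∀ (J : Type) (D : J → Type) [∀ j, CStarAlgebra (D j)] (t : ∀ j, D j → ℂ)
  (i0 : J) (A : Type) [CStarAlgebra A] (τ : A →ₗ[ℂ] ℂ)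
  (e : ∀ j, D j →⋆ₐ[ℂ] A) (f : C(unitInterval, ℂ) →⋆ₐ[ℂ] A), RFP1 D t τ e f →
  ∀ φ : C(unitInterval, ℝ), Function.Injective φ → Gen (e i0) (RR e i0).subtype (f (cx φ))

/-- from the limit to a reduced free product -/
def S_ABS4 : Prop := ∀ (J : Type) (D : J → Type) [∀ j, CStarAlgebra (D j)] (t : ∀ j, D j → ℂ)
  (i0 : J) (A : Type) [CStarAlgebra A] (τ : A →ₗ[ℂ] ℂ)
  (e : ∀ j, D j →⋆ₐ[ℂ] A) (f : C(unitInterval, ℂ) →⋆ₐ[ℂ] A) (s : A), RFP1 D t τ e f →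
  Sys τ (e i0) (RR e i0).subtype s → ∀ σ : D i0 →⋆ₐ[ℂ] A,
  (∀ w : List (Lt (D i0) (RR e i0)), (∀ z ∈ w, z.isS = false) →
    τ (ev (vl σ (RR e i0).subtype 0) w) = τ (ev (vl (e i0) (RR e i0).subtype 0) w)) →
  Gen0 σ (RR e i0).subtype → ∃ e' : ∀ j, D j →⋆ₐ[ℂ] A, RFP D t τ e'

/-- the absorption theorem -/
def S_ABS : Prop := ∀ (J : Type) (D : J → Type) [∀ j, CStarAlgebra (D j)] (t : ∀ j, D j → ℂ)
  (i0 i1 : J), i0 ≠ i1 → ∀ (c0 : C(unitInterval, ℂ) →⋆ₐ[ℂ] D i0) (c1 : C(unitInterval, ℂ) →⋆ₐ[ℂ] D i1),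
  (∀ x, t i0 (c0 x) = leb x) → (∀ x, t i1 (c1 x) = leb x) →
  ∀ (A : Type) [CStarAlgebra A] [TopologicalSpace.SeparableSpace A] (τ : A →ₗ[ℂ] ℂ)
  (e : ∀ j, D j →⋆ₐ[ℂ] A) (f : C(unitInterval, ℂ) →⋆ₐ[ℂ] A), RFP1 D t τ e f →
  ∃ e' : ∀ j, D j →⋆ₐ[ℂ] A, RFP D t τ e'

/-- reindexing for powers of `C([0,1])` -/
def S_FIN : Prop := ∀ (n : ℕ) (A : Type) [CStarAlgebra A] (τ : A →ₗ[ℂ] ℂ)
  (e : Fin (n + 1) → (C(unitInterval, ℂ) →⋆ₐ[ℂ] A)),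
  RFP (J := Fin (n + 1)) (fun _ => C(unitInterval, ℂ)) (fun _ => leb) τ e →
  RFP1 (J := Fin n) (fun _ => C(unitInterval, ℂ)) (fun _ => leb) τ (fun j => e j.castSucc)
    (e (Fin.last n))

end Pool.Agent.H923R2.FP
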