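import Pool.Agent.H923R2.FP.Defs

/-! Basic lemmas on words. -/

set_option autoImplicit false
set_option linter.unusedSectionVars false

open scoped ComplexConjugate

noncomputable section

namespace Pool.Agent.H923R2.FP

section ring

variable {A Q R : Type} [Ring A]

@[simp] lemma ev_nil (θ : Lt Q R → A) : ev θ [] = 1 := rfl

@[simp] lemma ev_cons (θ : Lt Q R → A) (z : Lt Q R) (w : List (Lt Q R)) :
    ev θ (z :: w) = θ z * ev θ w := by simp [ev]

@[simp] lemma ev_append (θ : Lt Q R → A) (w w' : List (Lt Q R)) :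
    ev θ (w ++ w') = ev θ w * ev θ w' := by simp [ev]

@[simp] lemma evx_nil [Algebra ℂ A] (θ : Lt Q R → A) : evx θ ([] : Ex Q R) = 0 := rfl

@[simp] lemma evx_cons [Algebra ℂ A] (θ : Lt Q R → A) (p : ℂ × List (Lt Q R)) (e : Ex Q R) :
    evx θ (p :: e) = p.1 • ev θ p.2 + evx θ e := by simp [evx]

@[simp] lemma evx_append [Algebra ℂ A] (θ : Lt Q R → A) (e e' : Ex Q R) :
    evx θ (e ++ e') = evx θ e + evx θ e' := by simp [evx]

lemma evx_smx [Algebra ℂ A] (θ : Lt Q R → A) (c : ℂ) (e : Ex Q R) :
    evx θ (smx c e) = c • evx θ e := by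
  induction e with
  | nil => simp [smx]
  | cons p e ih =>
    have : smx c (p :: e) = (c * p.1, p.2) :: smx c e := rfl
    rw [this, evx_cons, evx_cons, ih, smul_add, smul_smul]

@[simp] lemma der_nil (θ δ : Lt Q R → A) : der θ δ [] = 0 := rfl

@[simp] lemma der_cons (θ δ : Lt Q R → A) (z : Lt Q R) (w : List (Lt Q R)) :
    der θ δ (z :: w) = δ z * ev θ w + θ z * der θ δ w := rfl

lemma der_append (θ δ : Lt Q R → A) (w w' : List (Lt Q R)) :
    der θ δ (w ++ w') = der θ δ w * ev θ w' + ev θ w * der θ δ w' := by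
  induction w with
  | nil => simp
  | cons z w ih =>
    simp only [List.cons_append, der_cons, ev_append, ih, ev_cons]
    noncomm_ring

@[simp] lemma ssum_nil {M : Type} [AddCommMonoid M] (f : List (Lt Q R) → List (Lt Q R) → M)
    (l : List (Lt Q R)) : ssum f l [] = 0 := rfl

@[simp] lemma ssum_cons {M : Type} [AddCommMonoid M] (f : List (Lt Q R) → List (Lt Q R) → M)
    (l : List (Lt Q R)) (z : Lt Q R) (w : List (Lt Q R)) :
    ssum f l (z :: w) = (if z.isS then f l w else 0) + ssum f (l ++ [z]) w := rfl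

lemma ssum_append {M : Type} [AddCommMonoid M] (f : List (Lt Q R) → List (Lt Q R) → M)
    (l w w' : List (Lt Q R)) :
    ssum f l (w ++ w') = ssum (fun a b => f a (b ++ w')) l w + ssum f (l ++ w) w' := by
  induction w generalizing l with
  | nil => simp
  | cons z w ih =>
    simp only [List.cons_append, ssum_cons, ih, List.append_assoc, List.cons_append,
      List.nil_append, add_assoc]

lemma ssum_congr {M : Type} [AddCommMonoid M] {f g : List (Lt Q R) → List (Lt Q R) → M}
    (h : ∀ a b, f a b = g a b) (l w : List (Lt Q R)) : ssum f l w = ssum g l w := by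
  have : f = g := by funext a b; exact h a b
  rw [this]

lemma ssum_add {M : Type} [AddCommMonoid M] (f g : List (Lt Q R) → List (Lt Q R) → M)
    (l w : List (Lt Q R)) :
    ssum (fun a b => f a b + g a b) l w = ssum f l w + ssum g l w := by
  induction w generalizing l with
  | nil => simp
  | cons z w ih =>
    simp only [ssum_cons, ih]
    split_ifs
    · abel
    · simp

lemma ssum_map {M N : Type} [AddCommMonoid M] [AddCommMonoid N] (F : M →+ N)
    (f : List (Lt Q R) → List (Lt Q R) → M) (l w : List (Lt Q R)) :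
    F (ssum f l w) = ssum (fun a b => F (f a b)) l w := by
  induction w generalizing l with
  | nil => simp
  | cons z w ih =>
    simp only [ssum_cons, map_add, ih]
    split_ifs
    · rfl
    · simp

lemma ssum_noS {M : Type} [AddCommMonoid M] (f : List (Lt Q R) → List (Lt Q R) → M)
    (l w : List (Lt Q R)) (h : ∀ z ∈ w, z.isS = false) : ssum f l w = 0 := by
  induction w generalizing l with
  | nil => simp
  | cons z w ih =>
    rw [ssum_cons, ih _ fun x hx => h x (List.mem_cons_of_mem _ hx), h z (by simp)]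
    simp

/-- a shift of the accumulator -/
lemma ssum_shift {M : Type} [AddCommMonoid M] (f : List (Lt Q R) → List (Lt Q R) → M)
    (l l' w : List (Lt Q R)) : ssum f (l ++ l') w = ssum (fun a b => f (l ++ a) b) l' w := by
  induction w generalizing l' with
  | nil => simp
  | cons z w ih =>
    simp only [ssum_cons, List.append_assoc, ih]

@[simp] lemma phi_nil (τ : A → ℂ) (θ : Lt Q R → A) (α β : A) : phi τ θ β α [] = 0 := rfl

@[simp] lemma phi_cons (τ : A → ℂ) (θ : Lt Q R → A) (α β : A) (z : Lt Q R)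
    (w : List (Lt Q R)) : phi τ θ β α (z :: w) =
      (if z.isQ then τ (α * θ z) * τ (ev θ w * β) - τ α * τ (θ z * ev θ w * β) else 0)
      + phi τ θ β (α * θ z) w := rfl

lemma phi_append (τ : A → ℂ) (θ : Lt Q R → A) (α β : A) (w w' : List (Lt Q R)) :
    phi τ θ β α (w ++ w') = phi τ θ (ev θ w' * β) α w + phi τ θ β (α * ev θ w) w' := by
  induction w generalizing α with
  | nil => simp
  | cons z w ih =>
    simp only [List.cons_append, phi_cons, ih, ev_append, ev_cons, mul_assoc, add_assoc]

end ring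

section vl

variable {A Q R : Type}

@[simp] lemma vl_q (π : Q → A) (ρ : R → A) (s : A) (x : Q) : vl π ρ s (.q x) = π x := rfl
@[simp] lemma vl_r (π : Q → A) (ρ : R → A) (s : A) (x : R) : vl π ρ s (.r x) = ρ x := rfl
@[simp] lemma vl_s (π : Q → A) (ρ : R → A) (s : A) : vl π ρ s (.s : Lt Q R) = s := rfl

@[simp] lemma stl_stl [InvolutiveStar Q] [InvolutiveStar R] (z : Lt Q R) : stl (stl z) = z := by
  cases z <;> simp [stl]

@[simp] lemma stl_isS [Star Q] [Star R] (z : Lt Q R) : (stl z).isS = z.isS := by cases z <;> rfl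
@[simp] lemma stl_isQ [Star Q] [Star R] (z : Lt Q R) : (stl z).isQ = z.isQ := by cases z <;> rfl

end vl

section sys

variable {A Q R : Type} [CStarAlgebra A] [Ring Q] [StarRing Q] [Algebra ℂ Q]
  [Ring R] [StarRing R] [Algebra ℂ R]


/-- star of an evaluated word -/
lemma star_ev {θ : Lt Q R → A} (hθ : ∀ z, θ (stl z) = star (θ z)) (w : List (Lt Q R)) :
    star (ev θ w) = ev θ (stw w) := by
  induction w with
  | nil => simp [stw]
  | cons z w ih =>
    rw [ev_cons, star_mul, ih]
    simp [stw, hθ]

lemma vl_stl (π : Q →⋆ₐ[ℂ] A) (ρ : R →⋆ₐ[ℂ] A) {s : A} (hs : star s = s) (z : Lt Q R) :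
    vl π ρ s (stl z) = star (vl π ρ s z) := by
  cases z with
  | q x => simp [stl, map_star]
  | r x => simp [stl, map_star]
  | s => simp [stl, hs]


/-- words without the letter `s` do not depend on `s` -/
lemma ev_noS (π : Q → A) (ρ : R → A) (s s' : A) (w : List (Lt Q R))
    (h : ∀ z ∈ w, z.isS = false) : ev (vl π ρ s) w = ev (vl π ρ s') w := by
  induction w with
  | nil => rfl
  | cons z w ih =>
    rw [ev_cons, ev_cons, ih fun x hx => h x (List.mem_cons_of_mem _ hx)]
    congr 1
    have := h z (by simp)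
    cases z with
    | q x => rfl
    | r x => rfl
    | s => simp [Lt.isS] at this

lemma cj_apply (π : Q →⋆ₐ[ℂ] A) (U : unitary A) (x : Q) :
    cj π U x = star (U : A) * π x * (U : A) := by
  simp [cj, Unitary.conjStarAlgAut_apply]

/-- the word of a group element evaluates to the group element -/
lemma ev_gw (π : Q →⋆ₐ[ℂ] A) (ρ : R →⋆ₐ[ℂ] A) (s : A) (u : unitary Q) (a : unitary R) (g : F2) :
    ev (vl π ρ s) (gw u a g) = (GG π ρ u a g : A) := by
  have key : ∀ L : List (Bool × Bool), ev (vl π ρ s) (L.map fun p =>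
      if p.1 then (if p.2 then Lt.q (u : Q) else Lt.q (star (u : Q)))
      else (if p.2 then Lt.r (a : R) else Lt.r (star (a : R)))) =
      ((GG π ρ u a (FreeGroup.mk L) : unitary A) : A) := by
    intro L
    induction L with
    | nil => simp [← FreeGroup.one_eq_mk]
    | cons p L ih =>
      have h1 : FreeGroup.mk (p :: L) = FreeGroup.mk [p] * FreeGroup.mk L := by
        rw [FreeGroup.mul_mk]; rfl
      rw [List.map_cons, ev_cons, ih, h1, map_mul, Submonoid.coe_mul]
      congr 1
      obtain ⟨b, c⟩ := p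
      cases b <;> cases c <;> simp [GG, um, map_star] <;> rfl
  unfold gw
  rw [key, FreeGroup.mk_toWord]

lemma ev_pw (π : Q →⋆ₐ[ℂ] A) (ρ : R →⋆ₐ[ℂ] A) (s : A) (u : unitary Q) (a : unitary R) (X : R)
    (v : F2) (m : ℕ) : ev (vl π ρ s) (pw u a X v m) = PU π ρ u a X v m := by
  unfold pw PU
  rw [ev_append, ev_cons, ev_gw, ev_gw, vl_r, mul_assoc]

lemma gw_noS (u : unitary Q) (a : unitary R) (g : F2) : ∀ z ∈ gw u a g, z.isS = false := by
  intro z hz
  unfold gw at hz
  rw [List.mem_map] at hz
  obtain ⟨p, -, rfl⟩ := hz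
  split_ifs <;> rfl

lemma pw_noS (u : unitary Q) (a : unitary R) (X : R) (v : F2) (m : ℕ) :
    ∀ z ∈ pw u a X v m, z.isS = false := by
  intro z hz
  unfold pw at hz
  simp only [List.mem_append, List.mem_cons] at hz
  rcases hz with hz | hz | hz
  · exact gw_noS u a v z hz
  · rw [hz]; rfl
  · exact gw_noS u a v⁻¹ z hz

end sys

end Pool.Agent.H923R2.FP
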