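import Mathlib

/-!
Reduced free powers of `C([0,1])` (MP_118406_an).  Definitions.

`A` is a unital C*-algebra with a faithful tracial state `τ`; `Q` (moving) and `R` (fixed) are
`*`-algebras mapped to `A` by `π`, `ρ`; `s` is a semicircular element free from both.
-/

set_option autoImplicit false

open scoped ComplexConjugate

noncomputable section

namespace Pool.Agent.H923R2.FP

/-- faithful tracial state on a unital C*-algebra -/
structure FTS {A : Type} [CStarAlgebra A] (τ : A →ₗ[ℂ] ℂ) : Prop where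
  one : τ 1 = 1
  comm : ∀ x y, τ (x * y) = τ (y * x)
  str : ∀ x, τ (star x) = conj (τ x)
  nonneg : ∀ x, 0 ≤ (τ (star x * x)).re
  faith : ∀ x, (τ (star x * x)).re = 0 → x = 0
  bound : ∀ x, ‖τ x‖ ≤ ‖x‖

/-- the 2-norm -/
def nt {A : Type} [CStarAlgebra A] (τ : A →ₗ[ℂ] ℂ) (x : A) : ℝ := Real.sqrt (τ (star x * x)).re

/-- letters: elements of the moving algebra, elements of the fixed algebra, the letter `s` -/
inductive Lt (Q R : Type) : Type
  | q : Q → Lt Q R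
  | r : R → Lt Q R
  | s : Lt Q R

/-- is it the letter `s`? -/
def Lt.isS {Q R : Type} : Lt Q R → Bool
  | .s => true
  | _ => false

/-- is it a letter of the moving algebra? -/
def Lt.isQ {Q R : Type} : Lt Q R → Bool
  | .q _ => true
  | _ => false

/-- formal expressions: lists of scalar multiples of words -/
abbrev Ex (Q R : Type) : Type := List (ℂ × List (Lt Q R))

/-- values of the letters -/
def vl {A Q R : Type} (π : Q → A) (ρ : R → A) (s : A) : Lt Q R → A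
  | .q x => π x
  | .r x => ρ x
  | .s => s

section ring

variable {A Q R : Type} [Ring A]

/-- evaluation of a word -/
def ev (θ : Lt Q R → A) (w : List (Lt Q R)) : A := (w.map θ).prod

/-- evaluation of an expression -/
def evx [Algebra ℂ A] (θ : Lt Q R → A) (e : Ex Q R) : A := (e.map fun p => p.1 • ev θ p.2).sum

/-- the value of a derivation with the values `δ` at the letters -/
def der (θ δ : Lt Q R → A) : List (Lt Q R) → A
  | [] => 0
  | z :: w => δ z * ev θ w + θ z * der θ δ w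

/-- sum over the splittings `w = w' ++ s :: w''` of `f (l ++ w') w''` -/
def ssum {M : Type} [AddCommMonoid M] (f : List (Lt Q R) → List (Lt Q R) → M) :
    List (Lt Q R) → List (Lt Q R) → M
  | _, [] => 0
  | l, z :: w => (if z.isS then f l w else 0) + ssum f (l ++ [z]) w

/-- `∑ τ(α w' x) τ(w'' β) - τ(α w') τ(x w'' β)` over the splittings `w = w' ++ q x :: w''` -/
def phi (τ : A → ℂ) (θ : Lt Q R → A) (β : A) : A → List (Lt Q R) → ℂ
  | _, [] => 0
  | α, z :: w => (if z.isQ then τ (α * θ z) * τ (ev θ w * β) - τ α * τ (θ z * ev θ w * β) else 0)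
      + phi τ θ β (α * θ z) w

/-- values of the derivation `q ↦ i (q h - h q)`, `r ↦ 0`, `s ↦ - P` -/
def dl [Algebra ℂ A] (π : Q → A) (h P : A) : Lt Q R → A
  | .q x => Complex.I • (π x * h - h * π x)
  | .r _ => 0
  | .s => - P

/-- Chebyshev polynomials of the second kind (`U_{m+2} = x U_{m+1} - U_m`) -/
def Uc {B : Type} [Ring B] (x : B) : ℕ → B
  | 0 => 1
  | 1 => x
  | m + 2 => x * Uc x (m + 1) - Uc x m

end ring

/-- alternating word in the letters of `Q` and `R` -/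
def Alt {Q R : Type} (w : List (Lt Q R)) : Prop :=
  (∀ z ∈ w, z.isS = false) ∧ w.IsChain (fun x y => x.isQ ≠ y.isQ)

section star

variable {Q R : Type} [Star Q] [Star R]

/-- adjoint of a letter -/
def stl : Lt Q R → Lt Q R
  | .q x => .q (star x)
  | .r x => .r (star x)
  | .s => .s

/-- formal adjoint of a word -/
def stw (w : List (Lt Q R)) : List (Lt Q R) := (w.map stl).reverse

/-- the expression is self-adjoint under all evaluations compatible with the adjoint -/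
def SAx (A : Type) [CStarAlgebra A] (e : Ex Q R) : Prop :=
  ∀ θ : Lt Q R → A, (∀ z, θ (stl z) = star (θ z)) → star (evx θ e) = evx θ e

end star

section sys

variable {A Q R : Type} [CStarAlgebra A] [Ring Q] [StarRing Q] [Algebra ℂ Q]
  [Ring R] [StarRing R] [Algebra ℂ R]

/-- `(π(Q), ρ(R), s)` is free and `s` is semicircular (Schwinger–Dyson equations) -/
structure Sys (τ : A →ₗ[ℂ] ℂ) (π : Q →⋆ₐ[ℂ] A) (ρ : R →⋆ₐ[ℂ] A) (s : A) : Prop where
  ssa : star s = s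
  free : ∀ w : List (Lt Q R), w ≠ [] → Alt w → (∀ z ∈ w, τ (vl π ρ s z) = 0) →
    τ (ev (vl π ρ s) w) = 0
  sd : ∀ w : List (Lt Q R), τ (s * ev (vl π ρ s) w) =
    ssum (fun l r => τ (ev (vl π ρ s) l) * τ (ev (vl π ρ s) r)) [] w

/-- `(π(Q), ρ(R), s)` generates `A` as a C*-algebra -/
def Gen (π : Q →⋆ₐ[ℂ] A) (ρ : R →⋆ₐ[ℂ] A) (s : A) : Prop :=
  ∀ (y : A) (ε : ℝ), 0 < ε → ∃ e : Ex Q R, ‖y - evx (vl π ρ s) e‖ < ε

/-- `(π(Q), ρ(R))` generates `A` as a C*-algebra -/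
def Gen0 (π : Q →⋆ₐ[ℂ] A) (ρ : R →⋆ₐ[ℂ] A) : Prop :=
  ∀ (y : A) (ε : ℝ), 0 < ε → ∃ e : Ex Q R, (∀ p ∈ e, ∀ z ∈ p.2, z.isS = false) ∧
    ‖y - evx (vl π ρ 0) e‖ < ε

/-- same joint law -/
def Law (τ : A →ₗ[ℂ] ℂ) (θ θ' : Lt Q R → A) : Prop :=
  ∀ w : List (Lt Q R), τ (ev θ' w) = τ (ev θ w)

/-- gadget: a Haar unitary `u` of the moving algebra, a unitary `a` and a semicircular `X` of the
fixed algebra, which behave as independent up to order `p` -/
structure Gad (τ : A →ₗ[ℂ] ℂ) (π : Q →⋆ₐ[ℂ] A) (ρ : R →⋆ₐ[ℂ] A) (u : unitary Q) (a : unitary R)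
    (X : R) (p : ℕ) : Prop where
  hu : ∀ n : ℤ, n ≠ 0 → τ (π ((u ^ n : unitary Q) : Q)) = 0
  Xsa : star X = X
  Xn : ‖ρ X‖ ≤ 2
  hX : ∀ m : ℕ, m ≠ 0 → τ (ρ (Uc X m)) = 0
  ha : ∀ n : ℤ, n ≠ 0 → n.natAbs < p → ∀ m : ℕ,
    τ (ρ (Uc X m * ((a ^ n : unitary R) : R))) = 0

/-- the free group on `u = of true` and `a = of false` -/
abbrev F2 : Type := FreeGroup Bool

/-- image of a unitary -/
def um {B : Type} [Ring B] [StarRing B] [Algebra ℂ B] (π : B →⋆ₐ[ℂ] A) (u : unitary B) :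
    unitary A :=
  ⟨π (u : B), by
    have h := Unitary.mem_iff.1 u.2
    rw [Unitary.mem_iff, ← map_star, ← map_mul, ← map_mul, h.1, h.2, map_one]
    exact ⟨rfl, rfl⟩⟩

/-- representation of the free group on `u`, `a` -/
def GG (π : Q →⋆ₐ[ℂ] A) (ρ : R →⋆ₐ[ℂ] A) (u : unitary Q) (a : unitary R) : F2 →* unitary A :=
  FreeGroup.lift fun b => if b then um π u else um ρ a

/-- the group element as a word -/
def gw (u : unitary Q) (a : unitary R) (g : F2) : List (Lt Q R) :=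
  g.toWord.map fun p =>
    if p.1 then (if p.2 then Lt.q (u : Q) else Lt.q (star (u : Q)))
    else (if p.2 then Lt.r (a : R) else Lt.r (star (a : R)))

/-- `U_m(P)` as a word -/
def pw (u : unitary Q) (a : unitary R) (X : R) (v : F2) (m : ℕ) : List (Lt Q R) :=
  gw u a v ++ Lt.r (Uc X m) :: gw u a v⁻¹

/-- `U_m(P)` for `P = v X v⁻¹` -/
def PU (π : Q →⋆ₐ[ℂ] A) (ρ : R →⋆ₐ[ℂ] A) (u : unitary Q) (a : unitary R) (X : R) (v : F2)
    (m : ℕ) : A :=
  (GG π ρ u a v : A) * ρ (Uc X m) * (GG π ρ u a v⁻¹ : A)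

/-- `∑_{m,n<M} κ_{mn} U_m(P) s U_n(P)` -/
def KK (π : Q →⋆ₐ[ℂ] A) (ρ : R →⋆ₐ[ℂ] A) (u : unitary Q) (a : unitary R) (X : R) (v : F2)
    (s : A) (κ : ℕ → ℕ → ℂ) (M : ℕ) : A :=
  ∑ m ∈ Finset.range M, ∑ n ∈ Finset.range M,
    κ m n • (PU π ρ u a X v m * s * PU π ρ u a X v n)

/-- `∑_g c(g) g K g⁻¹` -/
def AdK (π : Q →⋆ₐ[ℂ] A) (ρ : R →⋆ₐ[ℂ] A) (u : unitary Q) (a : unitary R) (X : R) (v : F2)
    (s : A) (c : F2 →₀ ℝ) (κ : ℕ → ℕ → ℂ) (M : ℕ) : A :=
  ∑ g ∈ c.support, (c g : ℂ) •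
    ((GG π ρ u a g : A) * KK π ρ u a X v s κ M * (GG π ρ u a g⁻¹ : A))

/-- conjugation of a representation by a unitary: `x ↦ U* π(x) U` -/
def cj (π : Q →⋆ₐ[ℂ] A) (U : unitary A) : Q →⋆ₐ[ℂ] A :=
  ((Unitary.conjStarAlgAut ℂ A (star U) : A ≃⋆ₐ[ℂ] A) : A →⋆ₐ[ℂ] A).comp π

/-- values of the letters when the moving algebra is conjugated by an arbitrary element `U` -/
def vu (π : Q →⋆ₐ[ℂ] A) (ρ : R →⋆ₐ[ℂ] A) (U s : A) : Lt Q R → A :=
  vl (fun x => star U * π x * U) ρ s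

end sys

/-- weight of an expression -/
def wtx {Q R : Type} (ω : Lt Q R → ℝ) (e : Ex Q R) : ℝ :=
  (e.map fun p => ‖p.1‖ * (p.2.map ω).prod).sum

/-- product of a scalar and an expression -/
def smx {Q R : Type} (c : ℂ) (e : Ex Q R) : Ex Q R := e.map fun p => (c * p.1, p.2)

/-- linear extension of a map from words to expressions -/
def lix {Q R : Type} (D : List (Lt Q R) → Ex Q R) (e : Ex Q R) : Ex Q R :=
  e.flatMap fun p => smx p.1 (D p.2)

/-- smooth cutoff -/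
def rh (N m : ℕ) : ℝ := if m < N then (1 - (m : ℝ) / N) ^ 2 else 0

/-- coefficients of `K = (-i/2) ∑ ρ_m (U_{m+1} s U_m - U_m s U_{m+1})` -/
def kap (N m n : ℕ) : ℂ :=
  if m = n + 1 then -(Complex.I / 2) * rh N n
  else if n = m + 1 then (Complex.I / 2) * rh N m else 0

/-- coefficients of `i [P, K] - s` -/
def err (N m n : ℕ) : ℂ :=
  if m = n then (if m = 0 then 0 else ((rh N m - rh N (m - 1) : ℝ) : ℂ))
  else if m = n + 2 then (((rh N n - rh N (n + 1)) / 2 : ℝ) : ℂ)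
  else if n = m + 2 then (((rh N m - rh N (m + 1)) / 2 : ℝ) : ℂ) else 0

/-- the `ℓ²`-norm of a finitely supported real function -/
def n2 {α : Type} (c : α →₀ ℝ) : ℝ := Real.sqrt (∑ w ∈ c.support, c w ^ 2)

/-- left translation of a function on the group by `x` -/
def act {α : Type} [Group α] (x : α) (c : α →₀ ℝ) : α →₀ ℝ := c.mapDomain fun w => x * w

/-- syllables: `a, u, a², u², a³, …` -/
def zz (k : ℕ) : F2 := (FreeGroup.of (k % 2 == 1)) ^ (k / 2 + 1)

/-- `y_k = z_0 z_1 ⋯ z_{k-1}` -/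
def yy : ℕ → F2
  | 0 => 1
  | k + 1 => yy k * zz k

/-- `∑_{k=1}^{2L} (-1)^{k+1} y_k t` -/
def Zs (L : ℕ) (t : F2 →₀ ℝ) : F2 →₀ ℝ :=
  ∑ k ∈ Finset.Icc 1 (2 * L), ((-1 : ℝ) ^ (k + 1)) • act (yy k) t

/-- does the reduced word start with `u^{±1}`? -/
def S1 (g : F2) : Prop := ∃ b, g.toWord.head? = some (true, b)

open Classical in
/-- the sign `[g v starts with u] - [g starts with u]` -/
def eps (v g : F2) : ℝ := (if S1 (g * v) then 1 else 0) - (if S1 g then 1 else 0)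

/-! ### free families -/

section fam

variable {A : Type} [CStarAlgebra A]

/-- freeness of a family of `*`-subalgebras -/
def FreeFam {K : Type} (τ : A →ₗ[ℂ] ℂ) (S : K → StarSubalgebra ℂ A) : Prop :=
  ∀ w : List (K × A), w ≠ [] → (∀ z ∈ w, z.2 ∈ S z.1 ∧ τ z.2 = 0) →
    w.IsChain (fun x y => x.1 ≠ y.1) → τ ((w.map Prod.snd).prod) = 0

/-- Lebesgue integral on `C([0,1])` -/
def leb (f : C(unitInterval, ℂ)) : ℂ := ∫ x : unitInterval, f x

/-- `A` is the reduced free product of the `(D j, t j)` -/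
structure RFP {J : Type} (D : J → Type) [∀ j, CStarAlgebra (D j)] (t : ∀ j, D j → ℂ)
    (τ : A →ₗ[ℂ] ℂ) (e : ∀ j, D j →⋆ₐ[ℂ] A) : Prop where
  fts : FTS τ
  tr : ∀ j x, τ (e j x) = t j x
  free : FreeFam τ fun j => (e j).range
  gen : (StarAlgebra.adjoin ℂ (⋃ j, Set.range (e j))).topologicalClosure = ⊤

/-- `A` is the reduced free product of the `(D j, t j)` and of `(C([0,1]), Lebesgue)` -/
structure RFP1 {J : Type} (D : J → Type) [∀ j, CStarAlgebra (D j)] (t : ∀ j, D j → ℂ)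
    (τ : A →ₗ[ℂ] ℂ) (e : ∀ j, D j →⋆ₐ[ℂ] A) (f : C(unitInterval, ℂ) →⋆ₐ[ℂ] A) : Prop where
  fts : FTS τ
  tr : ∀ j x, τ (e j x) = t j x
  tr1 : ∀ x, τ (f x) = leb x
  free : FreeFam τ fun o : Option J => o.elim f.range fun j => (e j).range
  gen : (StarAlgebra.adjoin ℂ ((⋃ j, Set.range (e j)) ∪ Set.range f)).topologicalClosure = ⊤

end fam

end Pool.Agent.H923R2.FP
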